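import Pool.Agent.K4H81.VT.Met

/-!
# Averaging a sparse cut over a transitive group
-/

set_option autoImplicit false

open Finset
open scoped Pointwise

namespace Pool.Agent.K4H81.VT

variable {V : Type*} [Fintype V] [DecidableEq V] {G : SimpleGraph V} [DecidableRel G.Adj]
variable {A : Type*} [Group A] [MulAction A V]

/-- A set which every group element either maps to itself or away from itself. -/
def Blk (A : Type*) [Group A] {V : Type*} [DecidableEq V] [MulAction A V] (B : Finset V) : Prop :=
  ∀ g : A, (∃ x ∈ B, g • x ∈ B) → g • B = B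

omit [Fintype V] in
theorem blk_of {B : Finset V} (h : ∀ g : A, (∃ x ∈ B, g • x ∈ B) → ∀ x ∈ B, g • x ∈ B) :
    Blk A B := by
  intro g hg
  refine eq_of_subset_of_card_le ?_ (by rw [card_smul_finset])
  intro y hy
  obtain ⟨x, hx, rfl⟩ := mem_smul_finset.1 hy
  exact h g hg x hx

/-- The images of `F` under the stabiliser of `B`. -/
noncomputable def imgs (A : Type*) [Group A] {V : Type*} [Fintype V] [DecidableEq V]
    [MulAction A V] (B F : Finset V) : Finset (Finset V) := by
  classical
  exact univ.filter (fun P => ∃ g : A, g • B = B ∧ P = g • F)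

theorem mem_imgs {B F P : Finset V} : P ∈ imgs A B F ↔ ∃ g : A, g • B = B ∧ P = g • F := by
  classical
  simp [imgs]

theorem smul_mem_imgs {B F P : Finset V} {s : A} (hs : s • B = B) (hP : P ∈ imgs A B F) :
    s • P ∈ imgs A B F := by
  obtain ⟨g, hg, rfl⟩ := mem_imgs.1 hP
  exact mem_imgs.2 ⟨s * g, by rw [mul_smul, hg, hs], by rw [mul_smul]⟩

/-- Counting members of the orbit is invariant. -/
theorem card_imgs_filter {B F : Finset V} {s : A} (hs : s • B = B) (p q : Finset V → Prop)
    [DecidablePred p] [DecidablePred q] (h : ∀ P, p P ↔ q (s • P)) :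
    ((imgs A B F).filter p).card = ((imgs A B F).filter q).card := by
  classical
  refine card_bij (fun P _ => s • P) ?_ ?_ ?_
  · intro P hP
    rw [mem_filter] at hP ⊢
    exact ⟨smul_mem_imgs hs hP.1, (h P).1 hP.2⟩
  · intro P _ Q _ hPQ
    exact smul_left_cancel s hPQ
  · intro Q hQ
    rw [mem_filter] at hQ
    have hs' : s⁻¹ • B = B := by
      rw [inv_smul_eq_iff, hs]
    refine ⟨s⁻¹ • Q, ?_, by simp⟩
    rw [mem_filter]
    refine ⟨smul_mem_imgs hs' hQ.1, ?_⟩
    rw [h]
    simpa using hQ.2

/-- The number of members of the orbit containing a point. -/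
noncomputable def con (A : Type*) [Group A] {V : Type*} [Fintype V] [DecidableEq V]
    [MulAction A V] (B F : Finset V) (x : V) : ℕ := ((imgs A B F).filter (fun P => x ∈ P)).card

/-- The number of members of the orbit separating two points. -/
noncomputable def sep (A : Type*) [Group A] {V : Type*} [Fintype V] [DecidableEq V]
    [MulAction A V] (B F : Finset V) (x y : V) : ℕ :=
  ((imgs A B F).filter (fun P => ¬ (x ∈ P ↔ y ∈ P))).card

theorem con_smul {B F : Finset V} {s : A} (hs : s • B = B) (x : V) :
    con A B F (s • x) = con A B F x := by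
  unfold con
  refine (card_imgs_filter hs _ _ ?_).symm
  intro P
  rw [smul_mem_smul_finset_iff]

theorem sep_smul {B F : Finset V} {s : A} (hs : s • B = B) (x y : V) :
    sep A B F (s • x) (s • y) = sep A B F x y := by
  unfold sep
  refine (card_imgs_filter hs _ _ ?_).symm
  intro P
  rw [smul_mem_smul_finset_iff, smul_mem_smul_finset_iff]

theorem sep_self {B F : Finset V} (x : V) : sep A B F x x = 0 := by
  simp [sep]

theorem sep_comm {B F : Finset V} (x y : V) : sep A B F x y = sep A B F y x := by
  unfold sep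
  congr 1
  ext P
  simp only [mem_filter]
  tauto

theorem sep_triangle {B F : Finset V} (x y z : V) :
    sep A B F x z ≤ sep A B F x y + sep A B F y z := by
  classical
  unfold sep
  refine le_trans (card_le_card ?_) (card_union_le _ _)
  intro P hP
  rw [mem_union, mem_filter, mem_filter]
  rw [mem_filter] at hP
  tauto

/-- The number of ordered adjacent pairs of `B` separated by `P`. -/
def cut2 (G : SimpleGraph V) [DecidableRel G.Adj] (B P : Finset V) : ℕ :=
  ∑ x ∈ B, ((B.filter (G.Adj x)).filter (fun y => ¬ (x ∈ P ↔ y ∈ P))).card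

omit [Fintype V] in
theorem sum_smul_finset {s : A} {B : Finset V} (hs : s • B = B) {R : Type*} [AddCommMonoid R]
    (f : V → R) : ∑ x ∈ B, f (s • x) = ∑ x ∈ B, f x := by
  refine sum_bij (fun x _ => s • x) ?_ ?_ ?_ ?_
  · intro x hx
    rw [← hs]
    exact smul_mem_smul_finset hx
  · intro x _ y _ h
    exact smul_left_cancel s h
  · intro y hy
    rw [← hs] at hy
    obtain ⟨x, hx, rfl⟩ := mem_smul_finset.1 hy
    exact ⟨x, hx, rfl⟩
  · intro x _
    rfl

omit [Fintype V] in
theorem cut2_smul (hA : ∀ (g : A) (x y : V), G.Adj (g • x) (g • y) ↔ G.Adj x y)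
    {s : A} {B : Finset V} (hs : s • B = B) (P : Finset V) :
    cut2 G B (s • P) = cut2 G B P := by
  unfold cut2
  rw [← sum_smul_finset hs]
  refine sum_congr rfl fun x _ => ?_
  rw [filter_filter, filter_filter, card_filter, card_filter, ← sum_smul_finset hs]
  refine sum_congr rfl fun y _ => ?_
  simp only [hA, smul_mem_smul_finset_iff]

omit [Fintype V] in
theorem cut2_eq {B F : Finset V} (hF : F ⊆ B) :
    cut2 G B F = 2 * ∑ x ∈ F, ((B \ F).filter (G.Adj x)).card := by
  have h1 : cut2 G B F = ∑ x ∈ F, ((B \ F).filter (G.Adj x)).card +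
      ∑ x ∈ B \ F, (F.filter (G.Adj x)).card := by
    unfold cut2
    rw [← sum_sdiff hF, add_comm]
    congr 1
    · refine sum_congr rfl fun x hx => ?_
      congr 1
      ext y
      simp only [mem_filter, mem_sdiff]
      tauto
    · refine sum_congr rfl fun x hx => ?_
      rw [mem_sdiff] at hx
      congr 1
      ext y
      simp only [mem_filter]
      constructor
      · rintro ⟨⟨_, h2⟩, h3⟩
        tauto
      · rintro ⟨h2, h3⟩
        exact ⟨⟨hF h2, h3⟩, by tauto⟩
  have h2 : ∑ x ∈ B \ F, (F.filter (G.Adj x)).card =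
      ∑ x ∈ F, ((B \ F).filter (G.Adj x)).card := by
    simp only [card_filter]
    rw [sum_comm]
    refine sum_congr rfl fun x _ => sum_congr rfl fun y _ => ?_
    simp only [G.adj_comm]
  rw [h1, h2]
  ring

/-- The numbers for a transitive group. -/
theorem averages [MulAction.IsPretransitive A V]
    (hA : ∀ (g : A) (x y : V), G.Adj (g • x) (g • y) ↔ G.Adj x y) {B F : Finset V}
    (hB : Blk A B) (hF : F ⊆ B) (hne : F.Nonempty) :
    ∃ M : ℕ, 0 < M ∧
      (∀ x ∈ B, F.card * ∑ y ∈ B.filter (G.Adj x), sep A B F x y = M * cut2 G B F) ∧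
      ∀ x ∈ B, ∑ y ∈ B, sep A B F x y + 2 * M * F.card = 2 * M * B.card := by
  classical
  obtain ⟨x0, hx0F⟩ := hne
  have hx0 := hF hx0F
  set M := con A B F x0 with hM
  have htr : ∀ x ∈ B, ∃ s : A, s • B = B ∧ s • x0 = x := by
    intro x hx
    obtain ⟨s, hs⟩ := MulAction.exists_smul_eq A x0 x
    exact ⟨s, hB s ⟨x0, hx0, by rw [hs]; exact hx⟩, hs⟩
  have hcon : ∀ x ∈ B, con A B F x = M := by
    intro x hx
    obtain ⟨s, hs, rfl⟩ := htr x hx
    exact con_smul hs x0
  have hone : F ∈ imgs A B F := mem_imgs.2 ⟨1, by simp, by simp⟩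
  have hMpos : 0 < M := by
    rw [hM]
    unfold con
    exact card_pos.2 ⟨F, by rw [mem_filter]; exact ⟨hone, hx0F⟩⟩
  have hPsub : ∀ P ∈ imgs A B F, P ⊆ B ∧ P.card = F.card := by
    intro P hP
    obtain ⟨g, hg, rfl⟩ := mem_imgs.1 hP
    refine ⟨?_, by rw [card_smul_finset]⟩
    calc g • F ⊆ g • B := smul_finset_subset_smul_finset hF
      _ = B := hg
  have hE : M * B.card = (imgs A B F).card * F.card := by
    calc M * B.card = ∑ x ∈ B, con A B F x := by
          rw [sum_congr rfl hcon]; simp [mul_comm]
      _ = ∑ x ∈ B, ∑ P ∈ imgs A B F, (if x ∈ P then 1 else 0) := by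
          refine sum_congr rfl fun x _ => ?_
          unfold con
          rw [card_filter]
      _ = ∑ P ∈ imgs A B F, ∑ x ∈ B, (if x ∈ P then 1 else 0) := sum_comm
      _ = ∑ P ∈ imgs A B F, F.card := by
          refine sum_congr rfl fun P hP => ?_
          rw [← card_filter, ← (hPsub P hP).2]
          congr 1
          ext x
          rw [mem_filter]
          exact ⟨fun h => h.2, fun h => ⟨(hPsub P hP).1 h, h⟩⟩
      _ = _ := by simp
  refine ⟨M, hMpos, ?_, ?_⟩
  · -- neighbours
    set σ : V → ℕ := fun x => ∑ y ∈ B.filter (G.Adj x), sep A B F x y with hσ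
    have hσc : ∀ x ∈ B, σ x = σ x0 := by
      intro x hx
      obtain ⟨s, hs, rfl⟩ := htr x hx
      simp only [hσ, sum_filter]
      rw [← sum_smul_finset hs]
      refine sum_congr rfl fun y _ => ?_
      simp only [hA, sep_smul hs]
    have htot : ∑ x ∈ B, σ x = (imgs A B F).card * cut2 G B F := by
      calc ∑ x ∈ B, σ x = ∑ x ∈ B, ∑ y ∈ B.filter (G.Adj x), ∑ P ∈ imgs A B F,
            (if ¬ (x ∈ P ↔ y ∈ P) then 1 else 0) := by
            refine sum_congr rfl fun x _ => sum_congr rfl fun y _ => ?_
            unfold sep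
            rw [card_filter]
        _ = ∑ x ∈ B, ∑ P ∈ imgs A B F, ∑ y ∈ B.filter (G.Adj x),
            (if ¬ (x ∈ P ↔ y ∈ P) then 1 else 0) := sum_congr rfl fun x _ => sum_comm
        _ = ∑ P ∈ imgs A B F, ∑ x ∈ B, ∑ y ∈ B.filter (G.Adj x),
            (if ¬ (x ∈ P ↔ y ∈ P) then 1 else 0) := sum_comm
        _ = ∑ P ∈ imgs A B F, cut2 G B P := by
            refine sum_congr rfl fun P _ => ?_
            unfold cut2
            refine sum_congr rfl fun x _ => ?_
            rw [card_filter]
        _ = ∑ P ∈ imgs A B F, cut2 G B F := by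
            refine sum_congr rfl fun P hP => ?_
            obtain ⟨g, hg, rfl⟩ := mem_imgs.1 hP
            exact cut2_smul hA hg F
        _ = _ := by simp
    have hBσ : B.card * σ x0 = (imgs A B F).card * cut2 G B F := by
      rw [← htot, sum_congr rfl hσc]
      simp
    have hBpos : 0 < B.card := card_pos.2 ⟨x0, hx0⟩
    intro x hx
    change F.card * σ x = _
    rw [hσc x hx]
    have h1 : B.card * (F.card * σ x0) = B.card * (M * cut2 G B F) := by
      calc B.card * (F.card * σ x0) = F.card * (B.card * σ x0) := by ring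
        _ = F.card * ((imgs A B F).card * cut2 G B F) := by rw [hBσ]
        _ = ((imgs A B F).card * F.card) * cut2 G B F := by ring
        _ = (M * B.card) * cut2 G B F := by rw [hE]
        _ = _ := by ring
    exact Nat.eq_of_mul_eq_mul_left hBpos h1
  · intro x hx
    have h1 : ∑ y ∈ B, sep A B F x y = ∑ P ∈ imgs A B F,
        (B.filter (fun y => ¬ (x ∈ P ↔ y ∈ P))).card := by
      calc ∑ y ∈ B, sep A B F x y = ∑ y ∈ B, ∑ P ∈ imgs A B F,
            (if ¬ (x ∈ P ↔ y ∈ P) then 1 else 0) := by
            refine sum_congr rfl fun y _ => ?_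
            unfold sep
            rw [card_filter]
        _ = ∑ P ∈ imgs A B F, ∑ y ∈ B, (if ¬ (x ∈ P ↔ y ∈ P) then 1 else 0) := sum_comm
        _ = _ := by
            refine sum_congr rfl fun P _ => ?_
            rw [card_filter]
    have h2 : ∀ P ∈ imgs A B F, (B.filter (fun y => ¬ (x ∈ P ↔ y ∈ P))).card +
        (if x ∈ P then 2 * F.card else 0) = F.card + (if x ∈ P then B.card else 0) := by
      intro P hP
      obtain ⟨hPB, hPc⟩ := hPsub P hP
      by_cases hxP : x ∈ P
      · simp only [hxP, if_true]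
        have : B.filter (fun y => ¬ (True ↔ y ∈ P)) = B \ P := by
          ext y
          simp
        rw [this]
        have := card_sdiff_add_card_eq_card hPB
        omega
      · simp only [hxP, if_false]
        have : B.filter (fun y => ¬ (False ↔ y ∈ P)) = P := by
          ext y
          simp only [mem_filter, false_iff, not_not]
          exact ⟨fun h => h.2, fun h => ⟨hPB h, h⟩⟩
        rw [this]
        omega
    have h3 := sum_congr rfl h2
    rw [sum_add_distrib, sum_add_distrib, ← h1] at h3
    have h4 : ∀ c : ℕ, ∑ P ∈ imgs A B F, (if x ∈ P then c else 0) = M * c := by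
      intro c
      rw [← sum_filter, sum_const, smul_eq_mul]
      have := hcon x hx
      unfold con at this
      rw [this]
    rw [h4, h4, sum_const, smul_eq_mul, ← hE] at h3
    linarith

end Pool.Agent.K4H81.VT
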