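import Pool.Agent.TH815.GR1

/-!
# Gaps of a pseudometric that is small along the edges of a graph without short cycles
-/

set_option autoImplicit false

open Finset

namespace Pool.Agent.K4H81.VT

variable {V : Type*} [DecidableEq V] {G : SimpleGraph V} [DecidableRel G.Adj]

omit [DecidableEq V] in
/-- Markov's inequality. -/
theorem few_far {s : Finset V} {f : V → ℝ} (hf : ∀ y ∈ s, 0 ≤ f y) {t : ℝ} {S : ℝ}
    (h : ∑ y ∈ s, f y ≤ S) : ((s.filter (fun y => t < f y)).card : ℝ) * t ≤ S := by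
  calc ((s.filter (fun y => t < f y)).card : ℝ) * t
      = ∑ y ∈ s.filter (fun y => t < f y), t := by simp
    _ ≤ ∑ y ∈ s.filter (fun y => t < f y), f y :=
        sum_le_sum fun y hy => (mem_filter.1 hy).2.le
    _ ≤ ∑ y ∈ s, f y := sum_le_sum_of_subset_of_nonneg (filter_subset _ _)
        fun y hy _ => hf y hy
    _ ≤ S := h

/-- Balls of radius `8 k ε` are large. -/
theorem ball_card {k D : ℕ} {B : Finset V} {ρ : V → V → ℝ} {ε : ℝ} (hε : 0 < ε)
    (hg : ∀ (v : V) (p : G.Walk v v), p.IsCycle → 2 * k < p.length)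
    (hdeg : ∀ x ∈ B, (B.filter (G.Adj x)).card = D) (hD : 1 ≤ D)
    (hn : ∀ x y, 0 ≤ ρ x y) (h0 : ∀ x, ρ x x = 0) (ht : ∀ x y z, ρ x z ≤ ρ x y + ρ y z)
    (hs : ∀ x ∈ B, ∑ y ∈ B.filter (G.Adj x), ρ x y ≤ 2 * ε * D) {x : V} (hx : x ∈ B) {r : ℝ}
    (hr : 8 * k * ε ≤ r) :
    ((D : ℝ) / 4) ^ k ≤ ((B.filter (fun y => ρ x y ≤ r)).card : ℝ) := by
  classical
  rcases Nat.lt_or_ge D 2 with h1 | h2
  · have hD1 : D = 1 := by omega
    have hxm : x ∈ B.filter (fun y => ρ x y ≤ r) := by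
      rw [mem_filter]
      refine ⟨hx, ?_⟩
      rw [h0]
      exact le_trans (by positivity) hr
    have h3 : (1 : ℝ) ≤ ((B.filter (fun y => ρ x y ≤ r)).card : ℝ) := by
      exact_mod_cast card_pos.2 ⟨x, hxm⟩
    refine le_trans ?_ h3
    rw [hD1]
    exact pow_le_one₀ (by norm_num) (by norm_num)
  · set s : ℝ := 8 * ε with hsdef
    have hspos : 0 < s := by positivity
    have hδ : ∀ y ∈ B, D - D / 4 ≤ ((B.filter (G.Adj y)).filter (fun z => ρ y z ≤ s)).card := by
      intro y hy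
      have hm := few_far (t := s) (fun z _ => hn y z) (hs y hy)
      have hsplit : ((B.filter (G.Adj y)).filter (fun z => ρ y z ≤ s)).card +
          ((B.filter (G.Adj y)).filter (fun z => s < ρ y z)).card = D := by
        rw [← hdeg y hy, ← card_filter_add_card_filter_not (s := B.filter (G.Adj y))
          (fun z => ρ y z ≤ s)]
        simp only [not_le]
      have hle : ((B.filter (G.Adj y)).filter (fun z => s < ρ y z)).card * 4 ≤ D := by
        have : (((B.filter (G.Adj y)).filter (fun z => s < ρ y z)).card : ℝ) * 4 ≤ D := by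
          rw [hsdef] at hm ⊢
          have h5 : (((B.filter (G.Adj y)).filter (fun z => 8 * ε < ρ y z)).card : ℝ) * 4 *
              (2 * ε) ≤ D * (2 * ε) := by linarith
          exact le_of_mul_le_mul_right h5 (by positivity)
        exact_mod_cast this
      omega
    obtain ⟨E, hE, hE'⟩ := Pool.TH815.GR.growthT (G := G) (M := 2 * k) hg
      (fun i => B.filter (fun y => ρ x y ≤ i * s))
      (fun _ y => (B.filter (G.Adj y)).filter (fun z => ρ y z ≤ s)) (fun _ => D - D / 4)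
      (by
        intro i y hy z hz
        rw [mem_filter] at hy hz
        rw [mem_filter] at hz
        rw [mem_filter]
        refine ⟨⟨hz.1.1, ?_⟩, hz.1.2⟩
        have := ht x y z
        push_cast
        linarith [hy.2, hz.2])
      (by
        intro i y hy
        rw [mem_filter] at hy
        exact hδ y hy.1) (v := x) (by rw [mem_filter, h0]; exact ⟨hx, by simp⟩) k le_rfl
    have hsub : E ⊆ B.filter (fun y => ρ x y ≤ r) := by
      intro y hy
      have := (hE' y hy).1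
      rw [mem_filter] at this ⊢
      refine ⟨this.1, this.2.trans ?_⟩
      rw [hsdef]
      linarith
    have hc := card_le_card hsub
    simp only [prod_const, card_range] at hE
    have hle : (D : ℝ) / 4 ≤ ((D - D / 4 - 1 : ℕ) : ℝ) := by
      have h3 : D ≤ 4 * (D - D / 4 - 1) := by omega
      have h4 : (D : ℝ) ≤ 4 * ((D - D / 4 - 1 : ℕ) : ℝ) := by exact_mod_cast h3
      linarith
    calc ((D : ℝ) / 4) ^ k ≤ ((D - D / 4 - 1 : ℕ) : ℝ) ^ k :=
          pow_le_pow_left₀ (by positivity) hle k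
      _ = (((D - D / 4 - 1) ^ k : ℕ) : ℝ) := by push_cast; rfl
      _ ≤ (E.card : ℝ) := by exact_mod_cast hE
      _ ≤ _ := by exact_mod_cast hc

/-- Separated sets are small. -/
theorem sep_card {k D : ℕ} {B : Finset V} {ρ : V → V → ℝ} {ε : ℝ} (hε : 0 < ε)
    (hg : ∀ (v : V) (p : G.Walk v v), p.IsCycle → 2 * k < p.length)
    (hdeg : ∀ x ∈ B, (B.filter (G.Adj x)).card = D) (hD : 1 ≤ D)
    (hn : ∀ x y, 0 ≤ ρ x y) (h0 : ∀ x, ρ x x = 0) (hsy : ∀ x y, ρ x y = ρ y x)
    (ht : ∀ x y z, ρ x z ≤ ρ x y + ρ y z)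
    (hs : ∀ x ∈ B, ∑ y ∈ B.filter (G.Adj x), ρ x y ≤ 2 * ε * D) {C : ℝ}
    (hB : (B.card : ℝ) ≤ C * (D : ℝ) ^ k) {r : ℝ} (hr : 16 * k * ε ≤ r) {Y : Finset V}
    (hY : Y ⊆ B) (hYs : ∀ a ∈ Y, ∀ b ∈ Y, a ≠ b → r < ρ a b) :
    (Y.card : ℝ) ≤ 4 ^ k * C := by
  classical
  have hdisj : (Y : Set V).PairwiseDisjoint (fun a => B.filter (fun y => ρ a y ≤ r / 2)) := by
    intro a ha b hb hab
    rw [Function.onFun, Finset.disjoint_left]
    intro z hz hz'
    rw [mem_filter] at hz hz'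
    have h1 := ht a z b
    have h2 := hYs a ha b hb hab
    rw [hsy z b] at h1
    linarith [hz.2, hz'.2]
  have hcard : ∑ a ∈ Y, (B.filter (fun y => ρ a y ≤ r / 2)).card ≤ B.card := by
    rw [← card_biUnion hdisj]
    refine card_le_card ?_
    intro z hz
    rw [mem_biUnion] at hz
    obtain ⟨a, _, hz⟩ := hz
    exact (mem_filter.1 hz).1
  have h3 : (Y.card : ℝ) * ((D : ℝ) / 4) ^ k ≤ B.card := by
    calc (Y.card : ℝ) * ((D : ℝ) / 4) ^ k = ∑ _a ∈ Y, ((D : ℝ) / 4) ^ k := by simp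
      _ ≤ ∑ a ∈ Y, ((B.filter (fun y => ρ a y ≤ r / 2)).card : ℝ) :=
          sum_le_sum fun a ha => ball_card hε hg hdeg hD hn h0 ht hs (hY ha) (by linarith)
      _ ≤ (B.card : ℝ) := by exact_mod_cast hcard
  have hDpos : (0 : ℝ) < (D : ℝ) ^ k := by
    have : (0 : ℝ) < D := by exact_mod_cast hD
    positivity
  rw [div_pow] at h3
  have h4 : (Y.card : ℝ) * (D : ℝ) ^ k ≤ (4 ^ k * C) * (D : ℝ) ^ k := by
    have h5 : (0 : ℝ) < 4 ^ k := by positivity
    have h6 : (Y.card : ℝ) * ((D : ℝ) ^ k / 4 ^ k) * 4 ^ k ≤ C * (D : ℝ) ^ k * 4 ^ k :=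
      mul_le_mul_of_nonneg_right (h3.trans hB) h5.le
    have h7 : (Y.card : ℝ) * ((D : ℝ) ^ k / 4 ^ k) * 4 ^ k = (Y.card : ℝ) * (D : ℝ) ^ k := by
      field_simp
    rw [h7] at h6
    linarith
  exact le_of_mul_le_mul_right h4 hDpos

/-- All distances are more than `r`. -/
def IsSep (ρ : V → V → ℝ) (r : ℝ) (Y : Finset V) : Prop := ∀ a ∈ Y, ∀ b ∈ Y, a ≠ b → r < ρ a b

open Classical in
/-- The largest size of a subset of `B` with all distances more than `r`. -/
noncomputable def sepNum (B : Finset V) (ρ : V → V → ℝ) (r : ℝ) : ℕ :=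
  (B.powerset.filter (IsSep ρ r)).sup card

omit [DecidableEq V] in
theorem le_sepNum {B : Finset V} {ρ : V → V → ℝ} {r : ℝ} {Y : Finset V} (hY : Y ⊆ B)
    (h : ∀ a ∈ Y, ∀ b ∈ Y, a ≠ b → r < ρ a b) : Y.card ≤ sepNum B ρ r := by
  classical
  unfold sepNum
  exact le_sup (f := card) (by rw [mem_filter, mem_powerset]; exact ⟨hY, h⟩)

omit [DecidableEq V] in
theorem exists_sepNum (B : Finset V) (ρ : V → V → ℝ) (r : ℝ) :
    ∃ Y : Finset V, Y ⊆ B ∧ (∀ a ∈ Y, ∀ b ∈ Y, a ≠ b → r < ρ a b) ∧ Y.card = sepNum B ρ r := by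
  classical
  have hne : (B.powerset.filter (IsSep ρ r)).Nonempty :=
    ⟨∅, by simp [IsSep]⟩
  obtain ⟨Y, hY, hY'⟩ := exists_mem_eq_sup _ hne card
  rw [mem_filter, mem_powerset] at hY
  exact ⟨Y, hY.1, hY.2, by unfold sepNum; rw [hY']⟩

/-- The gap lemma. -/
theorem gap {k D : ℕ} {B : Finset V} {ρ : V → V → ℝ} {ε : ℝ} (hε : 0 < ε) (hk : 1 ≤ k)
    (hg : ∀ (v : V) (p : G.Walk v v), p.IsCycle → 2 * k < p.length)
    (hdeg : ∀ x ∈ B, (B.filter (G.Adj x)).card = D) (hD : 1 ≤ D)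
    (hn : ∀ x y, 0 ≤ ρ x y) (h0 : ∀ x, ρ x x = 0) (hsy : ∀ x y, ρ x y = ρ y x)
    (ht : ∀ x y z, ρ x z ≤ ρ x y + ρ y z)
    (hs : ∀ x ∈ B, ∑ y ∈ B.filter (G.Adj x), ρ x y ≤ 2 * ε * D) {C : ℝ}
    (hB : (B.card : ℝ) ≤ C * (D : ℝ) ^ k) (hne : B.Nonempty) {J : ℕ} (hJ : 4 ^ k * C ≤ J) :
    ∃ r : ℝ, 16 * k * ε ≤ r ∧ 6 * r ≤ 16 * k * ε * 6 ^ J ∧
      ∀ x ∈ B, ∀ y ∈ B, ρ x y ≤ 2 * r ∨ 4 * r < ρ x y := by
  classical
  set R : ℕ → ℝ := fun j => 16 * k * ε * 6 ^ j with hR
  have hkpos : (0 : ℝ) < k := by exact_mod_cast hk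
  have hRge : ∀ j, 16 * k * ε ≤ R j := by
    intro j
    have h6 : (1 : ℝ) ≤ 6 ^ j := one_le_pow₀ (by norm_num)
    have h7 : 0 < 16 * (k : ℝ) * ε := by positivity
    simp only [hR]
    nlinarith
  have hRs : ∀ j, R (j + 1) = 6 * R j := by
    intro j
    simp only [hR, pow_succ]
    ring
  have hJle : ∀ j, sepNum B ρ (R j) ≤ J := by
    intro j
    obtain ⟨Y, hY, hY', hc⟩ := exists_sepNum B ρ (R j)
    have := sep_card hε hg hdeg hD hn h0 hsy ht hs hB (hRge j) hY hY'
    rw [← hc]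
    exact_mod_cast this.trans hJ
  have hpos : ∀ j, 1 ≤ sepNum B ρ (R j) := by
    intro j
    obtain ⟨x, hx⟩ := hne
    have := le_sepNum (B := B) (ρ := ρ) (r := R j) (Y := {x}) (by simpa using hx) (by
      intro a ha b hb hab
      rw [mem_singleton] at ha hb
      exact absurd (ha.trans hb.symm) hab)
    simpa using this
  obtain ⟨j, hj, hjj⟩ : ∃ j, j < J ∧ sepNum B ρ (R j) ≤ sepNum B ρ (R (j + 1)) := by
    by_contra hcon
    push Not at hcon
    have hind : ∀ j, j ≤ J → sepNum B ρ (R j) + j ≤ sepNum B ρ (R 0) := by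
      intro j
      induction j with
      | zero => intro _; simp
      | succ j ih =>
        intro hj
        have h1 := ih (by omega)
        have h2 := hcon j (by omega)
        omega
    have h1 := hind J le_rfl
    have h2 := hJle 0
    have h3 := hpos J
    omega
  obtain ⟨Y, hY, hY', hc⟩ := exists_sepNum B ρ (R (j + 1))
  have hRpos : 0 < R j := lt_of_lt_of_le (by positivity) (hRge j)
  have hnear : ∀ x ∈ B, ∃ y ∈ Y, ρ x y ≤ R j := by
    intro x hx
    by_contra hcon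
    push Not at hcon
    have hxY : x ∉ Y := by
      intro hxY
      have := hcon x hxY
      rw [h0] at this
      linarith
    have := le_sepNum (B := B) (ρ := ρ) (r := R j) (Y := insert x Y) (by
      intro z hz
      rw [mem_insert] at hz
      rcases hz with rfl | hz
      · exact hx
      · exact hY hz) (by
      intro a ha b hb hab
      rw [mem_insert] at ha hb
      rcases ha with rfl | ha
      · rcases hb with rfl | hb
        · exact absurd rfl hab
        · exact hcon b hb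
      · rcases hb with rfl | hb
        · rw [hsy]
          exact hcon a ha
        · have := hY' a ha b hb hab
          rw [hRs] at this
          linarith)
    rw [card_insert_of_notMem hxY] at this
    omega
  refine ⟨R j, hRge j, ?_, ?_⟩
  · have hjJ : R (j + 1) ≤ R J := by
      simp only [hR]
      exact mul_le_mul_of_nonneg_left (pow_le_pow_right₀ (by norm_num) (by omega))
        (by positivity)
    rw [hRs] at hjJ
    exact hjJ
  · intro x hx y hy
    obtain ⟨a, ha, hxa⟩ := hnear x hx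
    obtain ⟨b, hb, hyb⟩ := hnear y hy
    by_cases hab : a = b
    · left
      subst hab
      have := ht x a y
      rw [hsy a y] at this
      linarith
    · right
      have h1 := hY' a ha b hb hab
      rw [hRs] at h1
      have h2 := ht a x b
      have h3 := ht x y b
      rw [hsy a x] at h2
      linarith

end Pool.Agent.K4H81.VT
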