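import Pool.Agent.K4H81.VT.Avg

/-!
# A block of imprimitivity that is an expander
-/

set_option autoImplicit false

open Finset
open scoped Pointwise

namespace Pool.Agent.K4H81.VT

variable {V : Type*} [Fintype V] [DecidableEq V] {G : SimpleGraph V} [DecidableRel G.Adj]
variable {A : Type*} [Group A] [MulAction A V]

omit [Fintype V] in
theorem blk_deg [MulAction.IsPretransitive A V]
    (hA : ∀ (g : A) (x y : V), G.Adj (g • x) (g • y) ↔ G.Adj x y) {B : Finset V}
    (hB : Blk A B) {x y : V} (hx : x ∈ B) (hy : y ∈ B) :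
    (B.filter (G.Adj x)).card = (B.filter (G.Adj y)).card := by
  obtain ⟨s, hs⟩ := MulAction.exists_smul_eq A x y
  have hsB : s • B = B := hB s ⟨x, hx, by rw [hs]; exact hy⟩
  rw [card_filter, card_filter, ← hs, ← sum_smul_finset hsB (fun z => if G.Adj (s • x) z then 1 else 0)]
  refine sum_congr rfl fun z _ => ?_
  simp only [hA]

theorem step [MulAction.IsPretransitive A V]
    (hA : ∀ (g : A) (x y : V), G.Adj (g • x) (g • y) ↔ G.Adj x y) {k D : ℕ} (hk : 1 ≤ k)
    (hg : ∀ (v : V) (p : G.Walk v v), p.IsCycle → 2 * k < p.length) {C : ℝ} {J : ℕ}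
    (hJ : 4 ^ k * C ≤ J) {ε : ℝ} (hε : 0 < ε) (hεJ : 64 * k * 6 ^ J * ε ≤ 1) {B F : Finset V}
    (hB : Blk A B) (hdeg : ∀ x ∈ B, (B.filter (G.Adj x)).card = D) (hD : 1 ≤ D)
    (hBC : (B.card : ℝ) ≤ C * (D : ℝ) ^ k) (hF : F ⊆ B) (hne : F.Nonempty)
    (hhalf : 2 * F.card ≤ B.card)
    (hcut : ((∑ x ∈ F, ((B \ F).filter (G.Adj x)).card : ℕ) : ℝ) ≤ ε * D * F.card) :
    ∃ B' : Finset V, Blk A B' ∧ B'.Nonempty ∧ 2 * B'.card ≤ B.card ∧
      ∀ x ∈ B', (D : ℝ) * (1 - 1 / (32 * k)) ≤ ((B'.filter (G.Adj x)).card : ℝ) := by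
  classical
  obtain ⟨M, hM, h1, h2⟩ := averages hA hB hF hne
  have hMr : (0 : ℝ) < M := by exact_mod_cast hM
  have hFr : (0 : ℝ) < F.card := by exact_mod_cast card_pos.2 hne
  have hkr : (0 : ℝ) < k := by exact_mod_cast hk
  have hDr : (1 : ℝ) ≤ D := by exact_mod_cast hD
  set ρ : V → V → ℝ := fun x y => (sep A B F x y : ℝ) / M with hρ
  have hn : ∀ x y, 0 ≤ ρ x y := fun x y => by simp only [hρ]; positivity
  have h0 : ∀ x, ρ x x = 0 := fun x => by simp only [hρ, sep_self]; simp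
  have hsy : ∀ x y, ρ x y = ρ y x := fun x y => by simp only [hρ]; rw [sep_comm]
  have ht : ∀ x y z, ρ x z ≤ ρ x y + ρ y z := by
    intro x y z
    simp only [hρ]
    rw [← add_div]
    refine div_le_div_of_nonneg_right ?_ hMr.le
    exact_mod_cast sep_triangle x y z
  have hinv : ∀ g : A, g • B = B → ∀ x y, ρ (g • x) (g • y) = ρ x y := by
    intro g hgB x y
    simp only [hρ]
    rw [sep_smul hgB]
  have hs : ∀ x ∈ B, ∑ y ∈ B.filter (G.Adj x), ρ x y ≤ 2 * ε * D := by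
    intro x hx
    simp only [hρ]
    rw [← sum_div, div_le_iff₀ hMr]
    have h3 := h1 x hx
    rw [cut2_eq hF] at h3
    have h4 : (F.card : ℝ) * ∑ y ∈ B.filter (G.Adj x), (sep A B F x y : ℝ) =
        M * (2 * ((∑ x ∈ F, ((B \ F).filter (G.Adj x)).card : ℕ) : ℝ)) := by
      exact_mod_cast h3
    have h5 : (F.card : ℝ) * ∑ y ∈ B.filter (G.Adj x), (sep A B F x y : ℝ) ≤
        F.card * (2 * ε * D * M) := by
      rw [h4]
      nlinarith
    exact le_of_mul_le_mul_left h5 hFr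
  obtain ⟨x0, hx0F⟩ := hne
  have hx0 := hF hx0F
  obtain ⟨y0, hy0, hfar⟩ : ∃ y ∈ B, 1 ≤ ρ x0 y := by
    have h3 := h2 x0 hx0
    have h4 : ∑ _y ∈ B, M ≤ ∑ y ∈ B, sep A B F x0 y := by
      rw [sum_const, smul_eq_mul]
      nlinarith
    obtain ⟨y, hy, hle⟩ := exists_le_of_sum_le ⟨x0, hx0⟩ h4
    refine ⟨y, hy, ?_⟩
    simp only [hρ]
    rw [one_le_div hMr]
    exact_mod_cast hle
  obtain ⟨r, hr1, hr2, hgap⟩ := gap hε hk hg hdeg hD hn h0 hsy ht hs hBC ⟨x0, hx0⟩ hJ
  have hrpos : 0 < r := lt_of_lt_of_le (by positivity) hr1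
  have hr3 : 24 * r ≤ 1 := by nlinarith
  set B' : Finset V := B.filter (fun y => ρ x0 y ≤ 2 * r) with hB'
  have hmem : ∀ y, y ∈ B' ↔ y ∈ B ∧ ρ x0 y ≤ 2 * r := fun y => by rw [hB', mem_filter]
  have hclose : ∀ x ∈ B', ∀ y ∈ B, ρ x y ≤ 4 * r → y ∈ B' := by
    intro x hx y hy hxy
    rw [hmem] at hx ⊢
    have h3 : ρ x y ≤ 2 * r := by
      rcases hgap x hx.1 y hy with h | h
      · exact h
      · linarith
    refine ⟨hy, ?_⟩
    rcases hgap x0 hx0 y hy with h | h
    · exact h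
    · have := ht x0 x y
      linarith [hx.2]
  have hblk' : ∀ g : A, (∃ x ∈ B', g • x ∈ B') → ∀ x ∈ B', g • x ∈ B' := by
    rintro g ⟨x, hx, hgx⟩ z hz
    have hxB := ((hmem x).1 hx).1
    have hgB : g • B = B := hB g ⟨x, hxB, ((hmem _).1 hgx).1⟩
    refine hclose (g • x) hgx (g • z) ?_ ?_
    · rw [← hgB]
      exact smul_mem_smul_finset ((hmem z).1 hz).1
    · rw [hinv g hgB]
      have h3 := ht x x0 z
      rw [hsy x x0] at h3
      linarith [((hmem x).1 hx).2, ((hmem z).1 hz).2]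
  have hx0' : x0 ∈ B' := by
    rw [hmem, h0]
    exact ⟨hx0, by linarith⟩
  have hy0' : y0 ∉ B' := by
    rw [hmem]
    rintro ⟨_, h⟩
    linarith
  refine ⟨B', blk_of hblk', ⟨x0, hx0'⟩, ?_, ?_⟩
  · obtain ⟨g, hgx⟩ := MulAction.exists_smul_eq A x0 y0
    have hgB : g • B = B := hB g ⟨x0, hx0, by rw [hgx]; exact hy0⟩
    have hdisj : Disjoint B' (g • B') := by
      rw [Finset.disjoint_left]
      intro z hz hz'
      obtain ⟨w, hw, rfl⟩ := mem_smul_finset.1 hz'
      have := hblk' g ⟨w, hw, hz⟩ x0 hx0'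
      rw [hgx] at this
      exact hy0' this
    have hsub : B' ∪ g • B' ⊆ B := by
      refine union_subset (filter_subset _ _) ?_
      calc g • B' ⊆ g • B := smul_finset_subset_smul_finset (filter_subset _ _)
        _ = B := hgB
    have := card_le_card hsub
    rw [card_union_of_disjoint hdisj, card_smul_finset] at this
    omega
  · intro x hx
    have hxB := ((hmem x).1 hx).1
    have hm := few_far (t := 4 * r) (fun z _ => hn x z) (hs x hxB)
    have hsplit : ((B.filter (G.Adj x)).filter (fun z => ρ x z ≤ 4 * r)).card +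
        ((B.filter (G.Adj x)).filter (fun z => 4 * r < ρ x z)).card = D := by
      rw [← hdeg x hxB, ← card_filter_add_card_filter_not (s := B.filter (G.Adj x))
        (fun z => ρ x z ≤ 4 * r)]
      simp only [not_le]
    have hsub : (B.filter (G.Adj x)).filter (fun z => ρ x z ≤ 4 * r) ⊆
        B'.filter (G.Adj x) := by
      intro z hz
      rw [mem_filter, mem_filter] at hz
      rw [mem_filter]
      exact ⟨hclose x hx z hz.1.1 hz.2, hz.1.2⟩
    have hc := card_le_card hsub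
    set a := ((B.filter (G.Adj x)).filter (fun z => 4 * r < ρ x z)).card with ha
    have hcr : (D : ℝ) ≤ ((B'.filter (G.Adj x)).card : ℝ) + a := by
      have : D ≤ (B'.filter (G.Adj x)).card + a := by omega
      exact_mod_cast this
    have har : (a : ℝ) ≤ D * (1 / (32 * k)) := by
      rw [mul_one_div, le_div_iff₀ (by positivity)]
      have h5 : (a : ℝ) * (4 * (16 * k * ε)) ≤ 2 * ε * D := by
        refine le_trans ?_ hm
        exact mul_le_mul_of_nonneg_left (by linarith) (by positivity)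
      have h6 : (2 * ε) * ((a : ℝ) * (32 * k)) ≤ (2 * ε) * D := by linarith
      exact le_of_mul_le_mul_left h6 (by positivity)
    linarith

omit [Fintype V] in
/-- The Moore bound inside a set. -/
theorem moore_in {k D : ℕ} {B : Finset V}
    (hg : ∀ (v : V) (p : G.Walk v v), p.IsCycle → 2 * k < p.length)
    (hdeg : ∀ x ∈ B, (B.filter (G.Adj x)).card = D) (hne : B.Nonempty) (hD : 1 ≤ D) :
    ((D : ℝ) / 2) ^ k ≤ B.card := by
  classical
  obtain ⟨x, hx⟩ := hne
  have hpos : (1 : ℝ) ≤ B.card := by exact_mod_cast card_pos.2 ⟨x, hx⟩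
  rcases Nat.lt_or_ge D 2 with h1 | h2
  · have hD1 : D = 1 := by omega
    refine le_trans ?_ hpos
    rw [hD1]
    exact pow_le_one₀ (by norm_num) (by norm_num)
  · obtain ⟨E, hE, hE'⟩ := Pool.TH815.GR.growthT (G := G) (M := 2 * k) hg
      (fun _ => B) (fun _ y => B.filter (G.Adj y)) (fun _ => D)
      (by
        intro i y hy z hz
        rw [mem_filter] at hz
        exact hz)
      (by
        intro i y hy
        exact (hdeg y hy).ge) (v := x) hx k le_rfl
    have hc : E.card ≤ B.card := card_le_card fun y hy => (hE' y hy).1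
    simp only [prod_const, card_range] at hE
    have hle : (D : ℝ) / 2 ≤ ((D - 1 : ℕ) : ℝ) := by
      have h3 : D ≤ 2 * (D - 1) := by omega
      have h4 : (D : ℝ) ≤ 2 * ((D - 1 : ℕ) : ℝ) := by exact_mod_cast h3
      linarith
    calc ((D : ℝ) / 2) ^ k ≤ ((D - 1 : ℕ) : ℝ) ^ k :=
          pow_le_pow_left₀ (by positivity) hle k
      _ = (((D - 1) ^ k : ℕ) : ℝ) := by push_cast; rfl
      _ ≤ (E.card : ℝ) := by exact_mod_cast hE
      _ ≤ _ := by exact_mod_cast hc

/-- The largest inner degree. -/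
def ideg (G : SimpleGraph V) [DecidableRel G.Adj] (B : Finset V) : ℕ :=
  B.sup (fun x => (B.filter (G.Adj x)).card)

omit [Fintype V] in
theorem ideg_eq [MulAction.IsPretransitive A V]
    (hA : ∀ (g : A) (x y : V), G.Adj (g • x) (g • y) ↔ G.Adj x y) {B : Finset V}
    (hB : Blk A B) {x : V} (hx : x ∈ B) : (B.filter (G.Adj x)).card = ideg G B := by
  unfold ideg
  refine le_antisymm (le_sup (f := fun x => (B.filter (G.Adj x)).card) hx) ?_
  refine Finset.sup_le fun y hy => ?_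
  exact (blk_deg hA hB hy hx).le

theorem main [Nonempty V] [MulAction.IsPretransitive A V]
    (hA : ∀ (g : A) (x y : V), G.Adj (g • x) (g • y) ↔ G.Adj x y) {k : ℕ} (hk : 1 ≤ k)
    (hg : ∀ (v : V) (p : G.Walk v v), p.IsCycle → 2 * k < p.length) {C : ℝ} {J : ℕ}
    (hJ : 4 ^ k * C ≤ J) {ε : ℝ} (hε : 0 < ε) (hεJ : 64 * k * 6 ^ J * ε ≤ 1) {d : ℕ}
    (hd : ∀ x, (univ.filter (G.Adj x)).card = d) (hV : (Fintype.card V : ℝ) ≤ C * (d : ℝ) ^ k) :
    ∃ (B : Finset V) (D : ℕ), Blk A B ∧ B.Nonempty ∧ 1 ≤ D ∧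
      (∀ x ∈ B, (B.filter (G.Adj x)).card = D) ∧
      (B.card : ℝ) ≤ C * (D : ℝ) ^ k ∧ (d : ℝ) ^ k ≤ 2 ^ k * C * (D : ℝ) ^ k ∧
      (Fintype.card V : ℝ) ≤ 4 ^ k * C ^ 2 * B.card ∧
      ∀ F ⊆ B, 2 * F.card ≤ B.card →
        ε * D * F.card ≤ ((∑ x ∈ F, ((B \ F).filter (G.Adj x)).card : ℕ) : ℝ) := by
  classical
  have hVpos : (1 : ℝ) ≤ Fintype.card V := by exact_mod_cast Fintype.card_pos
  have hd1 : 1 ≤ d := by
    by_contra hcon
    have h0 : d = 0 := by omega
    rw [h0] at hV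
    simp only [Nat.cast_zero] at hV
    rw [zero_pow (by omega)] at hV
    linarith
  have hdr : (1 : ℝ) ≤ d := by exact_mod_cast hd1
  have huniv : Blk A (univ : Finset V) := by
    intro g _
    exact smul_finset_univ
  obtain ⟨B, hBm, hmax⟩ := exists_max_image
    (univ.filter (fun B : Finset V => Blk A B ∧ B.Nonempty))
    (fun B => (ideg G B : ℝ) ^ (2 * k) / B.card) ⟨univ, by
      rw [mem_filter]; exact ⟨mem_univ _, huniv, univ_nonempty⟩⟩
  rw [mem_filter] at hBm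
  obtain ⟨_, hB, hBne⟩ := hBm
  set D := ideg G B with hDdef
  have hdeg : ∀ x ∈ B, (B.filter (G.Adj x)).card = D := fun x hx => ideg_eq hA hB hx
  have hBpos : (1 : ℝ) ≤ B.card := by exact_mod_cast card_pos.2 hBne
  have hudeg : ideg G (univ : Finset V) = d := by
    obtain ⟨x⟩ := (inferInstance : Nonempty V)
    rw [← ideg_eq hA huniv (mem_univ x), hd]
  have hpu : (d : ℝ) ^ (2 * k) / Fintype.card V ≤ (D : ℝ) ^ (2 * k) / B.card := by
    have := hmax univ (by rw [mem_filter]; exact ⟨mem_univ _, huniv, univ_nonempty⟩)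
    rw [hudeg, card_univ] at this
    exact this
  have hD1 : 1 ≤ D := by
    by_contra hcon
    have h0 : D = 0 := by omega
    rw [h0] at hpu
    simp only [Nat.cast_zero] at hpu
    rw [zero_pow (by omega), zero_div] at hpu
    have : 0 < (d : ℝ) ^ (2 * k) / Fintype.card V := by positivity
    linarith
  have hDr : (1 : ℝ) ≤ D := by exact_mod_cast hD1
  have hDd : D ≤ d := by
    obtain ⟨x, hx⟩ := hBne
    rw [← hdeg x hx, ← hd x]
    exact card_le_card (filter_subset_filter _ (subset_univ _))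
  have hDdr : (D : ℝ) ≤ d := by exact_mod_cast hDd
  have hdk : (0 : ℝ) < (d : ℝ) ^ k := by positivity
  have hDk : (0 : ℝ) < (D : ℝ) ^ k := by positivity
  have hC : 0 < C := by
    by_contra hcon
    push Not at hcon
    have := mul_nonpos_of_nonpos_of_nonneg hcon hdk.le
    linarith
  have hDdk : (D : ℝ) ^ k ≤ (d : ℝ) ^ k := pow_le_pow_left₀ (by positivity) hDdr k
  -- the size of the block
  have hkey : (B.card : ℝ) * (d : ℝ) ^ k ≤ C * ((D : ℝ) ^ k * (D : ℝ) ^ k) := by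
    rw [div_le_div_iff₀ (by positivity) (by positivity)] at hpu
    have h1 : (d : ℝ) ^ (2 * k) = (d : ℝ) ^ k * (d : ℝ) ^ k := by ring
    have h2 : (D : ℝ) ^ (2 * k) = (D : ℝ) ^ k * (D : ℝ) ^ k := by ring
    rw [h1, h2] at hpu
    have h3 : (d : ℝ) ^ k * ((B.card : ℝ) * (d : ℝ) ^ k) ≤
        (d : ℝ) ^ k * (C * ((D : ℝ) ^ k * (D : ℝ) ^ k)) := by
      calc (d : ℝ) ^ k * ((B.card : ℝ) * (d : ℝ) ^ k) = (d : ℝ) ^ k * (d : ℝ) ^ k * B.card := by
            ring
        _ ≤ (D : ℝ) ^ k * (D : ℝ) ^ k * Fintype.card V := hpu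
        _ ≤ (D : ℝ) ^ k * (D : ℝ) ^ k * (C * (d : ℝ) ^ k) :=
            mul_le_mul_of_nonneg_left hV (by positivity)
        _ = _ := by ring
    exact le_of_mul_le_mul_left h3 hdk
  have hBC : (B.card : ℝ) ≤ C * (D : ℝ) ^ k := by
    have h1 : (d : ℝ) ^ k * B.card ≤ (d : ℝ) ^ k * (C * (D : ℝ) ^ k) := by
      calc (d : ℝ) ^ k * B.card = (B.card : ℝ) * (d : ℝ) ^ k := by ring
        _ ≤ C * ((D : ℝ) ^ k * (D : ℝ) ^ k) := hkey
        _ ≤ C * ((D : ℝ) ^ k * (d : ℝ) ^ k) :=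
            mul_le_mul_of_nonneg_left (mul_le_mul_of_nonneg_left hDdk hDk.le) hC.le
        _ = _ := by ring
    exact le_of_mul_le_mul_left h1 hdk
  have hmoore := moore_in hg hdeg hBne hD1
  have h2k : (0 : ℝ) < 2 ^ k := by positivity
  have hmoore' : (D : ℝ) ^ k ≤ 2 ^ k * B.card := by
    rw [div_pow, div_le_iff₀ h2k] at hmoore
    linarith
  have hdD : (d : ℝ) ^ k ≤ 2 ^ k * C * (D : ℝ) ^ k := by
    have h1 : (D : ℝ) ^ k * (d : ℝ) ^ k ≤ (D : ℝ) ^ k * (2 ^ k * C * (D : ℝ) ^ k) := by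
      calc (D : ℝ) ^ k * (d : ℝ) ^ k ≤ (2 ^ k * B.card) * (d : ℝ) ^ k :=
            mul_le_mul_of_nonneg_right hmoore' hdk.le
        _ = 2 ^ k * ((B.card : ℝ) * (d : ℝ) ^ k) := by ring
        _ ≤ 2 ^ k * (C * ((D : ℝ) ^ k * (D : ℝ) ^ k)) := mul_le_mul_of_nonneg_left hkey h2k.le
        _ = _ := by ring
    exact le_of_mul_le_mul_left h1 hDk
  refine ⟨B, D, hB, hBne, hD1, hdeg, hBC, hdD, ?_, ?_⟩
  · calc (Fintype.card V : ℝ) ≤ C * (d : ℝ) ^ k := hV
      _ ≤ C * (2 ^ k * C * (D : ℝ) ^ k) := mul_le_mul_of_nonneg_left hdD hC.le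
      _ ≤ C * (2 ^ k * C * (2 ^ k * B.card)) := by
          refine mul_le_mul_of_nonneg_left ?_ hC.le
          exact mul_le_mul_of_nonneg_left hmoore' (by positivity)
      _ = 4 ^ k * C ^ 2 * B.card := by
          rw [show (4 : ℝ) = 2 * 2 by norm_num, mul_pow]
          ring
  · intro F hF hhalf
    by_contra hcon
    push Not at hcon
    have hne : F.Nonempty := by
      rw [nonempty_iff_ne_empty]
      rintro rfl
      simp at hcon
    obtain ⟨B', hblk, hne', hcard, hdeg'⟩ :=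
      step hA hk hg hJ hε hεJ hB hdeg hD1 hBC hF hne hhalf hcon.le
    have hp := hmax B' (by rw [mem_filter]; exact ⟨mem_univ _, hblk, hne'⟩)
    obtain ⟨x, hx⟩ := hne'
    have hD' := hdeg' x hx
    rw [ideg_eq hA hblk hx] at hD'
    have hkr : (1 : ℝ) ≤ k := by exact_mod_cast hk
    have hB'pos : (1 : ℝ) ≤ B'.card := by exact_mod_cast card_pos.2 ⟨x, hx⟩
    have hcr : 2 * (B'.card : ℝ) ≤ B.card := by exact_mod_cast hcard
    rw [div_le_div_iff₀ (by positivity) (by positivity)] at hp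
    have hsmall : 1 / (32 * (k : ℝ)) ≤ 1 / 32 := by
      refine div_le_div_of_nonneg_left (by norm_num) (by norm_num) (by linarith)
    have hbern : (15 : ℝ) / 16 ≤ (1 - 1 / (32 * (k : ℝ))) ^ (2 * k) := by
      have h3 := one_add_mul_le_pow (a := -(1 / (32 * (k : ℝ)))) (by linarith) (2 * k)
      have h4 : 1 + ((2 * k : ℕ) : ℝ) * -(1 / (32 * (k : ℝ))) = 15 / 16 := by
        push_cast
        field_simp
        norm_num
      rw [h4] at h3
      rw [sub_eq_add_neg]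
      exact h3
    have hpow : (D : ℝ) ^ (2 * k) * (15 / 16) ≤ (ideg G B' : ℝ) ^ (2 * k) := by
      calc (D : ℝ) ^ (2 * k) * (15 / 16)
          ≤ (D : ℝ) ^ (2 * k) * (1 - 1 / (32 * (k : ℝ))) ^ (2 * k) :=
            mul_le_mul_of_nonneg_left hbern (by positivity)
        _ = ((D : ℝ) * (1 - 1 / (32 * (k : ℝ)))) ^ (2 * k) := by rw [mul_pow]
        _ ≤ _ := pow_le_pow_left₀ (mul_nonneg (by positivity) (by linarith)) hD' _
    have hDpos : (0 : ℝ) < (D : ℝ) ^ (2 * k) := by positivity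
    have h5 : (D : ℝ) ^ (2 * k) * (15 / 16) * (2 * B'.card) ≤ (D : ℝ) ^ (2 * k) * B'.card := by
      calc (D : ℝ) ^ (2 * k) * (15 / 16) * (2 * B'.card)
          ≤ (ideg G B' : ℝ) ^ (2 * k) * (2 * B'.card) :=
            mul_le_mul_of_nonneg_right hpow (by positivity)
        _ ≤ (ideg G B' : ℝ) ^ (2 * k) * B.card :=
            mul_le_mul_of_nonneg_left hcr (by positivity)
        _ ≤ _ := hp
    nlinarith

end Pool.Agent.K4H81.VT
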